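import Mathlib

/-!
Mean values of products over small primes dividing `g(n + i) - g(n)` (for the piece R3 of the
project RP).
-/

set_option autoImplicit false

namespace Run7.h992.RP

open Finset Polynomial

/-- `(1 - 1/p)^(-2A)` -/
noncomputable def bet (A p : ℕ) : ℝ := (((1 - 1 / (p : ℝ)) ^ 2)⁻¹) ^ A

theorem two_crt (a b : ℕ) (ha : 0 < a) (hb : 0 < b) (hab : Nat.Coprime a b) (F G : ℕ → ℝ)
    (hF : ∀ n, F (n % a) = F n) (hG : ∀ n, G (n % b) = G n) :
    ∑ n ∈ range (a * b), F n * G n = (∑ x ∈ range a, F x) * ∑ y ∈ range b, G y := by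
  rw [Finset.sum_mul_sum, ← Finset.sum_product']
  refine Finset.sum_nbij' (fun n => (n % a, n % b))
    (fun w => (Nat.chineseRemainder hab w.1 w.2 : ℕ)) ?_ ?_ ?_ ?_ ?_
  · intro n _
    simp only [Finset.mem_product, Finset.mem_range]
    exact ⟨Nat.mod_lt _ ha, Nat.mod_lt _ hb⟩
  · intro w _
    simp only [Finset.mem_range]
    exact Nat.chineseRemainder_lt_mul hab _ _ (by omega) (by omega)
  · intro n hn
    simp only [Finset.mem_range] at hn
    have h1 := (Nat.chineseRemainder hab (n % a) (n % b)).2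
    have h2 : (Nat.chineseRemainder hab (n % a) (n % b) : ℕ) ≡ n [MOD a * b] := by
      rw [← Nat.modEq_and_modEq_iff_modEq_mul hab]
      exact ⟨h1.1.trans (Nat.mod_modEq n a), h1.2.trans (Nat.mod_modEq n b)⟩
    have h3 := Nat.chineseRemainder_lt_mul hab (n % a) (n % b) (by omega) (by omega)
    exact Nat.ModEq.eq_of_lt_of_lt h2 h3 hn
  · intro w hw
    simp only [Finset.mem_product, Finset.mem_range] at hw
    have h1 := (Nat.chineseRemainder hab w.1 w.2).2
    have h2 := h1.1
    have h3 := h1.2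
    unfold Nat.ModEq at h2 h3
    exact Prod.ext (h2.trans (Nat.mod_eq_of_lt hw.1)) (h3.trans (Nat.mod_eq_of_lt hw.2))
  · intro n _
    simp only [hF, hG]

theorem crt_sum (S : Finset ℕ) (hS : ∀ p ∈ S, p.Prime) (φ : ℕ → ℕ → ℝ)
    (hper : ∀ p ∈ S, ∀ n, φ p (n % p) = φ p n) :
    ∑ n ∈ range (∏ p ∈ S, p), ∏ p ∈ S, φ p n = ∏ p ∈ S, ∑ x ∈ range p, φ p x := by
  classical
  induction S using Finset.induction_on with
  | empty => simp
  | insert q S hq ih =>
    have hq0 : q.Prime := hS q (Finset.mem_insert_self q S)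
    have hS' : ∀ p ∈ S, p.Prime := fun p hp => hS p (Finset.mem_insert_of_mem hp)
    have hper' : ∀ p ∈ S, ∀ n, φ p (n % p) = φ p n :=
      fun p hp => hper p (Finset.mem_insert_of_mem hp)
    rw [Finset.prod_insert hq, Finset.prod_insert hq, ← ih hS' hper']
    have hcop : Nat.Coprime q (∏ p ∈ S, p) := by
      apply Nat.Coprime.prod_right
      intro p hp
      exact (Nat.coprime_primes hq0 (hS' p hp)).2 (fun h => hq (h ▸ hp))
    have hpos : 0 < ∏ p ∈ S, p := Finset.prod_pos fun p hp => (hS' p hp).pos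
    rw [← two_crt q (∏ p ∈ S, p) hq0.pos hpos hcop (φ q) (fun n => ∏ p ∈ S, φ p n)
      (hper q (Finset.mem_insert_self q S))]
    · refine Finset.sum_congr rfl fun n _ => ?_
      rw [Finset.prod_insert hq]
    · intro n
      refine Finset.prod_congr rfl fun p hp => ?_
      rw [← hper' p hp (n % ∏ p ∈ S, p), Nat.mod_mod_of_dvd n (Finset.dvd_prod_of_mem _ hp),
        hper' p hp]

/-- sum over one period -/
theorem sum_period (Q : ℕ) (F : ℕ → ℝ) (hF : ∀ n, F (n % Q) = F n) (s : ℕ) :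
    ∑ n ∈ Ico s (s + Q), F n = ∑ n ∈ range Q, F n := by
  induction s with
  | zero => rw [Nat.zero_add, Finset.range_eq_Ico]
  | succ s ih =>
    rcases Nat.eq_zero_or_pos Q with h | h
    · subst h
      simp
    · have h1 : ∑ n ∈ Ico s (s + Q), F n = F s + ∑ n ∈ Ico (s + 1) (s + Q), F n :=
        Finset.sum_eq_sum_Ico_succ_bot (by omega) F
      have h2 : ∑ n ∈ Ico (s + 1) (s + 1 + Q), F n =
          ∑ n ∈ Ico (s + 1) (s + Q), F n + F (s + Q) := by
        rw [show s + 1 + Q = (s + Q) + 1 by ring]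
        exact Finset.sum_Ico_succ_top (by omega) F
      have h3 : F (s + Q) = F s := by
        rw [← hF (s + Q), Nat.add_mod_right, hF]
      rw [h2, h3, ← ih, h1]
      ring

theorem sum_window (Q : ℕ) (hQ : 0 < Q) (F : ℕ → ℝ) (hF : ∀ n, F (n % Q) = F n)
    (h0 : ∀ n, 0 ≤ F n) (m₀ M : ℕ) :
    ∑ n ∈ Ioc m₀ (m₀ + M), F n ≤ ((M / Q : ℕ) + 1 : ℝ) * ∑ n ∈ range Q, F n := by
  have h1 : ∀ t s : ℕ, ∑ n ∈ Ico s (s + t * Q), F n = t * ∑ n ∈ range Q, F n := by
    intro t
    induction t with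
    | zero => intro s; simp
    | succ t ih =>
      intro s
      rw [← Finset.sum_Ico_consecutive F (show s ≤ s + t * Q by omega)
        (show s + t * Q ≤ s + (t + 1) * Q by nlinarith), ih s,
        show s + (t + 1) * Q = (s + t * Q) + Q by ring, sum_period Q F hF]
      push_cast
      ring
  have h2 : Ioc m₀ (m₀ + M) ⊆ Ico (m₀ + 1) (m₀ + 1 + (M / Q + 1) * Q) := by
    intro n hn
    rw [Finset.mem_Ioc] at hn
    rw [Finset.mem_Ico]
    have h3 : M < (M / Q + 1) * Q := by
      have := Nat.div_add_mod M Q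
      have h4 := Nat.mod_lt M hQ
      nlinarith
    omega
  calc ∑ n ∈ Ioc m₀ (m₀ + M), F n ≤ ∑ n ∈ Ico (m₀ + 1) (m₀ + 1 + (M / Q + 1) * Q), F n :=
        Finset.sum_le_sum_of_subset_of_nonneg h2 fun n _ _ => h0 n
    _ = _ := by
        rw [h1]
        push_cast
        ring

theorem bet_ge_one (A : ℕ) {p : ℕ} (hp : 2 ≤ p) : 1 ≤ bet A p := by
  unfold bet
  apply one_le_pow₀
  have h1 : (2 : ℝ) ≤ p := by exact_mod_cast hp
  have h2 : 0 < 1 / (p : ℝ) := by positivity
  have h3 : 1 / (p : ℝ) ≤ 1 / 2 := one_div_le_one_div_of_le (by norm_num) h1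
  rw [one_le_inv₀ (by nlinarith)]
  nlinarith

theorem pow_le_lin (m : ℕ) (t : ℝ) (h0 : 0 ≤ t) (h1 : t ≤ 1) :
    (1 + t) ^ m ≤ 1 + t * (2 ^ m - 1) := by
  induction m with
  | zero => simp
  | succ m ih =>
    have h2 : (1 : ℝ) ≤ 2 ^ m := one_le_pow₀ (by norm_num)
    calc (1 + t) ^ (m + 1) = (1 + t) ^ m * (1 + t) := pow_succ _ _
      _ ≤ (1 + t * (2 ^ m - 1)) * (1 + t) := by
          apply mul_le_mul_of_nonneg_right ih (by linarith)
      _ ≤ 1 + t * (2 ^ (m + 1) - 1) := by
          rw [pow_succ]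
          nlinarith [mul_nonneg h0 (mul_nonneg (sub_nonneg.2 h1) (sub_nonneg.2 h2))]

theorem bet_le (A : ℕ) {p : ℕ} (hp : 2 ≤ p) : bet A p ≤ 1 + 2 * 4 ^ A / p := by
  have h1 : (2 : ℝ) ≤ p := by exact_mod_cast hp
  have hp0 : (0 : ℝ) < p := by linarith
  have h2 : ((1 - 1 / (p : ℝ)) ^ 2)⁻¹ ≤ (1 + 2 / (p : ℝ)) ^ 2 := by
    rw [← inv_pow]
    have h3 : (1 - 1 / (p : ℝ))⁻¹ ≤ 1 + 2 / (p : ℝ) := by
      have h4 : 0 < 1 - 1 / (p : ℝ) := by
        rw [sub_pos, div_lt_one hp0]
        linarith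
      rw [inv_le_iff_one_le_mul₀ h4]
      have h5 : (1 - 1 / (p : ℝ)) * (1 + 2 / p) = 1 + (1 / p) * (1 - 2 / p) := by
        field_simp
        ring
      have h6 : 0 ≤ 1 - 2 / (p : ℝ) := by
        rw [sub_nonneg, div_le_one hp0]
        exact h1
      have h7 : (1 + 2 / (p : ℝ)) * (1 - 1 / p) = 1 + (1 / p) * (1 - 2 / p) := by
        rw [mul_comm, h5]
      rw [h7]
      have : 0 ≤ (1 / (p : ℝ)) * (1 - 2 / p) := mul_nonneg (by positivity) h6
      linarith
    apply pow_le_pow_left₀ _ h3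
    rw [inv_nonneg, sub_nonneg, div_le_one hp0]
    linarith
  have h8 : bet A p ≤ (1 + 2 / (p : ℝ)) ^ (2 * A) := by
    unfold bet
    rw [pow_mul]
    apply pow_le_pow_left₀ _ h2
    positivity
  have h9 : 2 / (p : ℝ) ≤ 1 := by
    rw [div_le_one hp0]
    exact h1
  have h10 := pow_le_lin (2 * A) (2 / (p : ℝ)) (by positivity) h9
  have h11 : (2 : ℝ) ^ (2 * A) = 4 ^ A := by
    rw [pow_mul]
    norm_num
  rw [h11] at h10
  calc bet A p ≤ _ := h8
    _ ≤ _ := h10
    _ ≤ 1 + 2 * 4 ^ A / p := by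
        have : 2 / (p : ℝ) * (4 ^ A - 1) = 2 * 4 ^ A / p - 2 / p := by
          field_simp
        rw [this]
        have : 0 ≤ 2 / (p : ℝ) := by positivity
        linarith

/-- number of zeros of `g(x + i) - g(x)` modulo `p` -/
theorem rho_le (g : ℤ[X]) (hg : 2 ≤ g.natDegree ∧ 0 < g.leadingCoeff) (p i : ℕ) (hp : p.Prime)
    (hpd : g.natDegree + g.leadingCoeff.natAbs < p) (hpi : ¬ p ∣ i) :
    ((range p).filter fun x : ℕ =>
      (p : ℤ) ∣ g.eval ((x + i : ℕ) : ℤ) - g.eval (x : ℤ)).card ≤ g.natDegree := by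
  classical
  have : Fact p.Prime := ⟨hp⟩
  set f : (ZMod p)[X] := g.map (Int.castRingHom (ZMod p)) with hf
  set h : (ZMod p)[X] := f.comp (X + C (i : ZMod p)) - f with hh
  have hev : ∀ x : ℕ, h.eval (x : ZMod p) =
      ((g.eval ((x + i : ℕ) : ℤ) - g.eval (x : ℤ) : ℤ) : ZMod p) := by
    intro x
    rw [hh, eval_sub, eval_comp, eval_add, eval_X, eval_C, hf]
    push_cast
    rw [eval_map, eval_map]
    have h1 : ∀ z : ℤ, eval₂ (Int.castRingHom (ZMod p)) (z : ZMod p) g = ((g.eval z : ℤ) : ZMod p) := by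
      intro z
      have := Polynomial.eval₂_at_apply (p := g) (Int.castRingHom (ZMod p)) z
      exact this
    have h2 := h1 ((x : ℤ) + i)
    have h3 := h1 (x : ℤ)
    push_cast at h2 h3
    rw [h2, h3]
  -- `f` has degree `d < p`
  have hlc : (g.leadingCoeff : ZMod p) ≠ 0 := by
    intro h0
    rw [ZMod.intCast_zmod_eq_zero_iff_dvd] at h0
    have := Int.le_of_dvd hg.2 h0
    have h2 : (g.leadingCoeff.natAbs : ℤ) = g.leadingCoeff := Int.natAbs_of_nonneg hg.2.le
    omega
  have hfd : f.natDegree = g.natDegree :=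
    natDegree_map_of_leadingCoeff_ne_zero _ hlc
  have hne : h ≠ 0 := by
    intro h0
    -- then `f(x + i) = f(x)`, so `f` is constant
    have hper : ∀ x : ZMod p, f.eval (x + i) = f.eval x := by
      intro x
      have := congrArg (eval x) h0
      rw [hh, eval_sub, eval_comp, eval_add, eval_X, eval_C, eval_zero] at this
      exact sub_eq_zero.1 this
    have hper2 : ∀ t : ℕ, f.eval ((t : ZMod p) * i) = f.eval 0 := by
      intro t
      induction t with
      | zero => simp
      | succ t ih =>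
        have h1 := hper ((t : ZMod p) * i)
        push_cast
        rw [add_mul, one_mul, h1, ih]
    have hi0 : (i : ZMod p) ≠ 0 := by
      intro h1
      exact hpi ((ZMod.natCast_eq_zero_iff i p).1 h1)
    have hconst : ∀ x : ZMod p, f.eval x = f.eval 0 := by
      intro x
      have h1 := hper2 (x * (i : ZMod p)⁻¹).val
      rw [ZMod.natCast_zmod_val, mul_assoc, inv_mul_cancel₀ hi0, mul_one] at h1
      exact h1
    have hz : f - C (f.eval 0) = 0 := by
      apply Polynomial.eq_zero_of_natDegree_lt_card_of_eval_eq_zero' (f - C (f.eval 0))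
        Finset.univ
      · intro x _
        rw [eval_sub, eval_C, hconst, sub_self]
      · rw [Finset.card_univ, ZMod.card]
        have h1 : (f - C (f.eval 0)).natDegree ≤ f.natDegree := by
          rw [natDegree_sub_C]
        omega
    have h2 : f.natDegree = 0 := by
      rw [sub_eq_zero.1 hz, natDegree_C]
    omega
  have hdeg : h.natDegree ≤ g.natDegree := by
    rw [hh]
    refine (natDegree_sub_le _ _).trans (max_le ?_ (le_of_eq hfd))
    rw [natDegree_comp, natDegree_X_add_C, mul_one]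
    exact le_of_eq hfd
  have hcard : ((range p).filter fun x : ℕ =>
      (p : ℤ) ∣ g.eval ((x + i : ℕ) : ℤ) - g.eval (x : ℤ)).card ≤ h.roots.toFinset.card := by
    apply Finset.card_le_card_of_injOn (fun x : ℕ => (x : ZMod p))
    · intro x hx
      rw [Finset.mem_coe, Finset.mem_filter] at hx
      rw [Finset.mem_coe, Multiset.mem_toFinset, mem_roots hne, IsRoot.def, hev,
        ZMod.intCast_zmod_eq_zero_iff_dvd]
      exact hx.2
    · intro x hx x' hx' hxx
      rw [Finset.mem_coe, Finset.mem_filter, Finset.mem_range] at hx hx'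
      have h1 := (ZMod.natCast_eq_natCast_iff' x x' p).1 hxx
      rwa [Nat.mod_eq_of_lt hx.1, Nat.mod_eq_of_lt hx'.1] at h1
  calc _ ≤ h.roots.toFinset.card := hcard
    _ ≤ Multiset.card h.roots := Multiset.toFinset_card_le _
    _ ≤ h.natDegree := card_roots' h
    _ ≤ g.natDegree := hdeg

theorem prod_le_of_subset {s t : Finset ℕ} (hst : s ⊆ t) (f : ℕ → ℝ) (hf : ∀ p ∈ t, 1 ≤ f p) :
    ∏ p ∈ s, f p ≤ ∏ p ∈ t, f p := by
  classical
  rw [← Finset.prod_sdiff hst]
  have h1 : 1 ≤ ∏ p ∈ t \ s, f p := by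
    apply Finset.prod_induction f (fun x => 1 ≤ x) (fun a b ha hb => one_le_mul_of_one_le_of_one_le ha hb)
      le_rfl
    intro p hp
    exact hf p (Finset.mem_sdiff.1 hp).1
  have h2 : 0 ≤ ∏ p ∈ s, f p := Finset.prod_nonneg fun p hp =>
    zero_le_one.trans (hf p (hst hp))
  nlinarith

theorem sum_inv_sq (y : ℕ) : ∑ p ∈ (range (y + 1)).filter Nat.Prime, 1 / (p : ℝ) ^ 2 ≤ 1 := by
  have h1 : ∀ y : ℕ, ∑ n ∈ range y, 1 / ((n : ℝ) + 2) ^ 2 ≤ 1 - 1 / ((y : ℝ) + 1) := by
    intro y
    induction y with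
    | zero => simp
    | succ y ih =>
      rw [Finset.sum_range_succ]
      have h3 : 1 / ((y : ℝ) + 2) ^ 2 ≤ 1 / ((y : ℝ) + 1) - 1 / ((y : ℝ) + 2) := by
        have h4 : 1 / ((y : ℝ) + 1) - 1 / ((y : ℝ) + 2) = 1 / (((y : ℝ) + 1) * ((y : ℝ) + 2)) := by
          field_simp
          ring
        rw [h4]
        apply one_div_le_one_div_of_le (by positivity)
        nlinarith [Nat.cast_nonneg (α := ℝ) y]
      push_cast
      rw [show (y : ℝ) + 1 + 1 = y + 2 by ring]
      linarith
  have h2 : (range (y + 1)).filter Nat.Prime ⊆ Ico 2 (y + 2) := by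
    intro p hp
    rw [Finset.mem_filter, Finset.mem_range] at hp
    rw [Finset.mem_Ico]
    have := hp.2.two_le
    omega
  calc _ ≤ ∑ p ∈ Ico 2 (y + 2), 1 / (p : ℝ) ^ 2 :=
        Finset.sum_le_sum_of_subset_of_nonneg h2 fun _ _ _ => by positivity
    _ = ∑ n ∈ range y, 1 / ((n : ℝ) + 2) ^ 2 := by
        rw [Finset.sum_Ico_eq_sum_range]
        refine Finset.sum_congr (by rw [Nat.add_sub_cancel]) fun n _ => ?_
        push_cast
        rw [add_comm (2 : ℝ)]
    _ ≤ 1 - 1 / ((y : ℝ) + 1) := h1 y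
    _ ≤ 1 := by
        have : 0 ≤ 1 / ((y : ℝ) + 1) := by positivity
        linarith

theorem rat_pow (A i : ℕ) (hi : 1 ≤ i) :
    ∏ p ∈ i.primeFactors, bet A p = ((i : ℝ) / i.totient) ^ (2 * A) := by
  have h1 := Nat.totient_eq_mul_prod_factors i
  have h2 : (i.totient : ℝ) = i * ∏ p ∈ i.primeFactors, (1 - (p : ℝ)⁻¹) := by
    have := congrArg (fun q : ℚ => (q : ℝ)) h1
    push_cast at this
    exact this
  have hi0 : (i : ℝ) ≠ 0 := by
    have : (1 : ℝ) ≤ i := by exact_mod_cast hi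
    linarith
  have h3 : (i : ℝ) / i.totient = ∏ p ∈ i.primeFactors, (1 - (p : ℝ)⁻¹)⁻¹ := by
    rw [h2, Finset.prod_inv_distrib, div_mul_eq_div_div, div_self hi0, one_div]
  rw [h3, ← Finset.prod_pow]
  refine Finset.prod_congr rfl fun p _ => ?_
  unfold bet
  rw [one_div, pow_mul, ← inv_pow]

open Classical in
theorem core (g : ℤ[X]) (hg : 2 ≤ g.natDegree ∧ 0 < g.leadingCoeff) (A : ℕ) :
    ∃ K : ℝ, 0 < K ∧ ∀ y m₀ M i : ℕ, 1 ≤ i → 4 ^ y ≤ M →
      ∑ n ∈ Ioc m₀ (m₀ + M), ∏ p ∈ (range (y + 1)).filter Nat.Prime,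
        (if (p : ℤ) ∣ g.eval ((n + i : ℕ) : ℤ) - g.eval (n : ℤ) then bet A p else 1) ≤
      K * M * ((i : ℝ) / i.totient) ^ (2 * A) := by
  set d := g.natDegree with hd
  set D := g.natDegree + g.leadingCoeff.natAbs with hD
  set c : ℝ := 2 * d * 4 ^ A with hc
  have hc0 : 0 ≤ c := by positivity
  set K1 : ℝ := ∏ p ∈ (range (D + 1)).filter Nat.Prime, bet A p with hK1
  have hK1pos : 0 < K1 := Finset.prod_pos fun p hp =>
    lt_of_lt_of_le one_pos (bet_ge_one A (Finset.mem_filter.1 hp).2.two_le)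
  refine ⟨2 * (Real.exp c * K1), by positivity, ?_⟩
  intro y m₀ M i hi hyM
  set S := (range (y + 1)).filter Nat.Prime with hS
  have hSp : ∀ p ∈ S, p.Prime := fun p hp => (Finset.mem_filter.1 hp).2
  set φ : ℕ → ℕ → ℝ := fun p n =>
    if (p : ℤ) ∣ g.eval ((n + i : ℕ) : ℤ) - g.eval (n : ℤ) then bet A p else 1 with hφ
  have hφ0 : ∀ p ∈ S, ∀ n, 1 ≤ φ p n := by
    intro p hp n
    simp only [hφ]
    split_ifs
    · exact bet_ge_one A (hSp p hp).two_le
    · exact le_rfl
  have hper : ∀ p ∈ S, ∀ n, φ p (n % p) = φ p n := by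
    intro p _ n
    have h1 : ∀ j : ℕ, (p : ℤ) ∣ g.eval ((n + j : ℕ) : ℤ) - g.eval ((n % p + j : ℕ) : ℤ) := by
      intro j
      refine dvd_trans ?_ (Polynomial.sub_dvd_eval_sub _ _ g)
      have h2 : (n : ℤ) = (p : ℤ) * ((n / p : ℕ) : ℤ) + ((n % p : ℕ) : ℤ) := by
        exact_mod_cast (Nat.div_add_mod n p).symm
      refine ⟨((n / p : ℕ) : ℤ), ?_⟩
      push_cast at h2 ⊢
      linarith
    have h2 : ((p : ℤ) ∣ g.eval ((n % p + i : ℕ) : ℤ) - g.eval ((n % p : ℕ) : ℤ)) ↔
        ((p : ℤ) ∣ g.eval ((n + i : ℕ) : ℤ) - g.eval (n : ℤ)) := by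
      have h3 := h1 i
      have h4 := h1 0
      simp only [Nat.add_zero] at h4
      constructor
      · intro h
        have := dvd_add (dvd_sub h3 h4) h
        have e : (g.eval ((n + i : ℕ) : ℤ) - g.eval ((n % p + i : ℕ) : ℤ) -
          (g.eval ((n : ℕ) : ℤ) - g.eval ((n % p : ℕ) : ℤ))) +
          (g.eval ((n % p + i : ℕ) : ℤ) - g.eval ((n % p : ℕ) : ℤ)) =
          g.eval ((n + i : ℕ) : ℤ) - g.eval (n : ℤ) := by ring
        rwa [e] at this
      · intro h
        have := dvd_sub h (dvd_sub h3 h4)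
        have e : g.eval ((n + i : ℕ) : ℤ) - g.eval (n : ℤ) -
          (g.eval ((n + i : ℕ) : ℤ) - g.eval ((n % p + i : ℕ) : ℤ) -
          (g.eval ((n : ℕ) : ℤ) - g.eval ((n % p : ℕ) : ℤ))) =
          g.eval ((n % p + i : ℕ) : ℤ) - g.eval ((n % p : ℕ) : ℤ) := by ring
        rwa [e] at this
    simp only [hφ]
    by_cases h : (p : ℤ) ∣ g.eval ((n + i : ℕ) : ℤ) - g.eval (n : ℤ)
    · rw [if_pos h, if_pos (h2.2 h)]
    · rw [if_neg h, if_neg (fun h' => h (h2.1 h'))]
  set Q := ∏ p ∈ S, p with hQ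
  have hQpos : 0 < Q := Finset.prod_pos fun p hp => (hSp p hp).pos
  have hQM : Q ≤ M := by
    have h1 : Q = primorial y := rfl
    rw [h1]
    exact (primorial_le_four_pow y).trans hyM
  have hFper : ∀ n, (∏ p ∈ S, φ p (n % Q)) = ∏ p ∈ S, φ p n := by
    intro n
    refine Finset.prod_congr rfl fun p hp => ?_
    rw [← hper p hp (n % Q), Nat.mod_mod_of_dvd n (Finset.dvd_prod_of_mem _ hp), hper p hp]
  have hwin := sum_window Q hQpos (fun n => ∏ p ∈ S, φ p n) hFper
    (fun n => Finset.prod_nonneg fun p hp => zero_le_one.trans (hφ0 p hp n)) m₀ M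
  rw [hQ, crt_sum S hSp φ hper, ← hQ] at hwin
  -- local bound
  have hloc : ∀ p ∈ S, ∑ x ∈ range p, φ p x ≤ (p : ℝ) * ((1 + c / (p : ℝ) ^ 2) *
      ((if p ∣ i then bet A p else 1) * (if p ≤ D then bet A p else 1))) := by
    intro p hp
    have hp2 := (hSp p hp).two_le
    have hb1 := bet_ge_one A hp2
    have hp0 : (0 : ℝ) < p := by
      have : (2 : ℝ) ≤ p := by exact_mod_cast hp2
      linarith
    have hcp : 1 ≤ 1 + c / (p : ℝ) ^ 2 := by
      have : 0 ≤ c / (p : ℝ) ^ 2 := by positivity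
      linarith
    have htriv : ∑ x ∈ range p, φ p x ≤ p * bet A p := by
      calc _ ≤ ∑ _x ∈ range p, bet A p := by
            refine Finset.sum_le_sum fun x _ => ?_
            simp only [hφ]
            split_ifs
            · exact le_rfl
            · exact hb1
        _ = _ := by rw [Finset.sum_const, Finset.card_range, nsmul_eq_mul]
    by_cases h1 : p ∣ i
    · rw [if_pos h1]
      refine htriv.trans (mul_le_mul_of_nonneg_left ?_ hp0.le)
      have h2 : 1 ≤ (if p ≤ D then bet A p else 1) := by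
        split_ifs
        · exact hb1
        · exact le_rfl
      have h3 : bet A p ≤ bet A p * (if p ≤ D then bet A p else 1) :=
        le_mul_of_one_le_right (by linarith) h2
      exact h3.trans (le_mul_of_one_le_left (by nlinarith) hcp)
    · rw [if_neg h1, one_mul]
      by_cases h2 : p ≤ D
      · rw [if_pos h2]
        exact htriv.trans (mul_le_mul_of_nonneg_left
          (le_mul_of_one_le_left (by linarith) hcp) hp0.le)
      · rw [if_neg h2, mul_one]
        have h3 := rho_le g hg p i (hSp p hp) (by omega) h1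
        have h4 : ∑ x ∈ range p, φ p x = p + ((range p).filter fun x : ℕ =>
            (p : ℤ) ∣ g.eval ((x + i : ℕ) : ℤ) - g.eval (x : ℤ)).card * (bet A p - 1) := by
          have h5 : ∀ x ∈ range p, φ p x = 1 + (if (p : ℤ) ∣ g.eval ((x + i : ℕ) : ℤ) -
              g.eval (x : ℤ) then bet A p - 1 else 0) := by
            intro x _
            simp only [hφ]
            split_ifs <;> ring
          rw [Finset.sum_congr rfl h5, Finset.sum_add_distrib, ← Finset.sum_filter,
            Finset.sum_const, Finset.sum_const, Finset.card_range, nsmul_eq_mul, nsmul_eq_mul,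
            mul_one]
        rw [h4]
        have h5 := bet_le A hp2
        have h6 : ((((range p).filter fun x : ℕ =>
            (p : ℤ) ∣ g.eval ((x + i : ℕ) : ℤ) - g.eval (x : ℤ)).card : ℕ) : ℝ) ≤ d := by
          exact_mod_cast h3
        have h7 : ((((range p).filter fun x : ℕ =>
            (p : ℤ) ∣ g.eval ((x + i : ℕ) : ℤ) - g.eval (x : ℤ)).card : ℕ) : ℝ) *
            (bet A p - 1) ≤ d * (2 * 4 ^ A / p) := by
          apply mul_le_mul h6 (by linarith) (by linarith) (by positivity)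
        have h8 : (p : ℝ) * (1 + c / (p : ℝ) ^ 2) = p + d * (2 * 4 ^ A / p) := by
          rw [hc]
          field_simp
        rw [h8]
        linarith
  have hprod : ∏ p ∈ S, ∑ x ∈ range p, φ p x ≤ (Q : ℝ) * (Real.exp c * (((i : ℝ) / i.totient) ^ (2 * A) * K1)) := by
    calc _ ≤ ∏ p ∈ S, ((p : ℝ) * ((1 + c / (p : ℝ) ^ 2) *
        ((if p ∣ i then bet A p else 1) * (if p ≤ D then bet A p else 1)))) := by
          refine Finset.prod_le_prod (fun p hp => Finset.sum_nonneg fun x _ =>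
            zero_le_one.trans (hφ0 p hp x)) hloc
      _ = (∏ p ∈ S, (p : ℝ)) * ((∏ p ∈ S, (1 + c / (p : ℝ) ^ 2)) *
          ((∏ p ∈ S, (if p ∣ i then bet A p else 1)) *
            ∏ p ∈ S, (if p ≤ D then bet A p else 1))) := by
          rw [Finset.prod_mul_distrib, Finset.prod_mul_distrib, Finset.prod_mul_distrib]
      _ ≤ _ := by
          have e1 : ∏ p ∈ S, (p : ℝ) = Q := by
            rw [hQ]
            push_cast
            rfl
          have e2 : ∏ p ∈ S, (1 + c / (p : ℝ) ^ 2) ≤ Real.exp c := by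
            calc _ ≤ ∏ p ∈ S, Real.exp (c / (p : ℝ) ^ 2) := by
                  refine Finset.prod_le_prod (fun p _ => by positivity) fun p _ => ?_
                  rw [add_comm]
                  exact Real.add_one_le_exp _
              _ = Real.exp (∑ p ∈ S, c / (p : ℝ) ^ 2) := (Real.exp_sum _ _).symm
              _ ≤ Real.exp c := by
                  apply Real.exp_le_exp.2
                  have h1 : ∑ p ∈ S, c / (p : ℝ) ^ 2 = c * ∑ p ∈ S, 1 / (p : ℝ) ^ 2 := by
                    rw [Finset.mul_sum]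
                    refine Finset.sum_congr rfl fun p _ => ?_
                    ring
                  rw [h1]
                  calc _ ≤ c * 1 := mul_le_mul_of_nonneg_left (sum_inv_sq y) hc0
                    _ = c := mul_one c
          have e3 : ∏ p ∈ S, (if p ∣ i then bet A p else 1) ≤
              ((i : ℝ) / i.totient) ^ (2 * A) := by
            rw [← rat_pow A i hi, ← Finset.prod_filter]
            apply prod_le_of_subset
            · intro p hp
              rw [Finset.mem_filter] at hp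
              exact Nat.mem_primeFactors.2 ⟨hSp p hp.1, hp.2, by omega⟩
            · intro p hp
              exact bet_ge_one A (Nat.prime_of_mem_primeFactors hp).two_le
          have e4 : ∏ p ∈ S, (if p ≤ D then bet A p else 1) ≤ K1 := by
            rw [hK1, ← Finset.prod_filter]
            apply prod_le_of_subset
            · intro p hp
              rw [Finset.mem_filter] at hp
              rw [Finset.mem_filter, Finset.mem_range]
              exact ⟨by omega, hSp p hp.1⟩
            · intro p hp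
              exact bet_ge_one A (Finset.mem_filter.1 hp).2.two_le
          have p2 : 0 ≤ ∏ p ∈ S, (if p ∣ i then bet A p else 1) := by
            refine Finset.prod_nonneg fun p hp => ?_
            split_ifs
            · exact zero_le_one.trans (bet_ge_one A (hSp p hp).two_le)
            · exact zero_le_one
          have p3 : 0 ≤ ∏ p ∈ S, (if p ≤ D then bet A p else 1) := by
            refine Finset.prod_nonneg fun p hp => ?_
            split_ifs
            · exact zero_le_one.trans (bet_ge_one A (hSp p hp).two_le)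
            · exact zero_le_one
          rw [e1]
          apply mul_le_mul_of_nonneg_left _ (Nat.cast_nonneg Q)
          apply mul_le_mul e2 _ (mul_nonneg p2 p3) (Real.exp_pos c).le
          exact mul_le_mul e3 e4 p3 (by positivity)
  have hMQ : ((M / Q : ℕ) + 1 : ℝ) * Q ≤ 2 * M := by
    have h1 : (M / Q) * Q ≤ M := Nat.div_mul_le_self M Q
    have h2 : ((M / Q : ℕ) : ℝ) * Q ≤ M := by exact_mod_cast h1
    have h3 : (Q : ℝ) ≤ M := by exact_mod_cast hQM
    linarith
  have hR0 : 0 ≤ Real.exp c * (((i : ℝ) / i.totient) ^ (2 * A) * K1) := by positivity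
  calc _ ≤ ((M / Q : ℕ) + 1 : ℝ) * ∏ p ∈ S, ∑ x ∈ range p, φ p x := hwin
    _ ≤ ((M / Q : ℕ) + 1 : ℝ) * ((Q : ℝ) * (Real.exp c * (((i : ℝ) / i.totient) ^ (2 * A) * K1))) :=
        mul_le_mul_of_nonneg_left hprod (by positivity)
    _ = (((M / Q : ℕ) + 1 : ℝ) * Q) * (Real.exp c * (((i : ℝ) / i.totient) ^ (2 * A) * K1)) := by
        ring
    _ ≤ (2 * M) * (Real.exp c * (((i : ℝ) / i.totient) ^ (2 * A) * K1)) :=
        mul_le_mul_of_nonneg_right hMQ hR0
    _ = _ := by ring

end Run7.h992.RP
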