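import Pool.Agent.Run7.h285.R.Stm
import Pool.Agent.Run7.h992.RP.R3A

/-!
Piece R3 of the project RP.
-/

set_option autoImplicit false

namespace Run7.h992.RP

open Finset Polynomial
open Run7.h285.G (Gd)
open Run7.h285.R (hh S_R3)

theorem hh_pow (A y : ℕ) (δ : ℤ) : hh y δ ^ A =
    ∏ p ∈ (range (y + 1)).filter Nat.Prime, (if (p : ℤ) ∣ δ then bet A p else 1) := by
  classical
  unfold hh
  rw [← Finset.prod_filter, Finset.filter_filter, ← Finset.prod_pow]
  refine Finset.prod_congr ?_ fun p _ => rfl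
  ext p
  simp only [Finset.mem_filter]

theorem r3 (g : ℤ[X]) (hg : Gd g) : S_R3 g := by
  classical
  intro A
  obtain ⟨K, hK, h⟩ := core g hg A
  refine ⟨K, hK, fun y m₀ M i hi hyM => ?_⟩
  have h1 := h y m₀ M i hi hyM
  unfold Pool.Agent.H646.rat
  refine le_trans (le_of_eq (Finset.sum_congr rfl fun n _ => ?_)) h1
  rw [hh_pow]

end Run7.h992.RP
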